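import Pool.Agent.H1.ToeE

namespace Pool.Agent.Results.MP_3f635c_an.NotAlgebra

open MeasureTheory Metric
open scoped ENNReal

variable {X : Type} [NormedAddCommGroup X] [NormedSpace ℂ X]

/-- `ι` realises the Banach space `X` as a space of analytic functions in the unit disc
(with continuous point evaluations) which satisfies conditions 1-3. -/
structure Admissible (ι : X →ₗ[ℂ] (ℂ → ℂ)) : Prop where
  hol : ∀ x, DifferentiableOn ℂ (ι x) (ball 0 1)
  inj : ∀ x, (∀ z ∈ ball (0 : ℂ) 1, ι x z = 0) → x = 0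
  eval : ∀ z ∈ ball (0 : ℂ) 1, Continuous fun x => ι x z
  rot : ∀ x (t : ℝ), ∃ y, ∀ z ∈ ball (0 : ℂ) 1, ι y z = ι x (Complex.exp (t * Complex.I) * z)
  poly : ∀ p : Polynomial ℂ, ∃ x, ∀ z ∈ ball (0 : ℂ) 1, ι x z = p.eval z
  dense : Dense {x | ∃ p : Polynomial ℂ, ∀ z ∈ ball (0 : ℂ) 1, ι x z = p.eval z}
  shift : ∃ S : X →L[ℂ] X, (∀ x, ∀ z ∈ ball (0 : ℂ) 1, ι (S x) z = z * ι x z) ∧
    spectralRadius ℂ S = 1
  back : ∃ R : X →L[ℂ] X, (∀ x, ∀ z ∈ ball (0 : ℂ) 1, z * ι (R x) z = ι x z - ι x 0) ∧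
    spectralRadius ℂ R = 1

/-- `u ∈ ST(X)`: `u ∈ L^∞` and `p ↦ P₊(u p)` extends to a bounded operator on `X`. -/
def InST (ι : X →ₗ[ℂ] (ℂ → ℂ)) (u : AddCircle (1 : ℝ) → ℂ) : Prop :=
  MemLp u ∞ AddCircle.haarAddCircle ∧ ∃ S : X →L[ℂ] X, ∀ (p : Polynomial ℂ) (x : X),
    (∀ z ∈ ball (0 : ℂ) 1, ι x z = p.eval z) → ∀ z ∈ ball (0 : ℂ) 1,
      HasSum (fun n : ℕ => fourierCoeff (fun t => u t * p.eval (fourier 1 t)) n * z ^ n) (ι (S x) z)

open Pool.Agent.H1.Toe in
lemma adm : Admissible iota where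
  hol := iota_diff
  inj := fun x h => XS_co_ext fun n => by
    have := congrFun (coef_unique (d := 0) (fun z hz => iota_hasSum x hz)
      (fun z hz => by rw [h z hz]; simp)) n
    simpa using this
  eval := fun z hz => iota_cont hz
  rot := fun x t => by
    obtain ⟨S, hS⟩ := exists_rot ((t / (2 * Real.pi) : ℝ) : T)
    refine ⟨S x, fun z hz => (iota_hasSum _ hz).unique ?_⟩
    have hz' : Complex.exp (t * Complex.I) * z ∈ ball (0 : ℂ) 1 := by
      simpa [Complex.norm_exp_ofReal_mul_I] using hz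
    convert iota_hasSum x hz' using 2 with n
    rw [hS, co_Rot, fourier_coe_apply, mul_pow, ← Complex.exp_nat_mul]
    have : (Real.pi : ℂ) ≠ 0 := by exact_mod_cast Real.pi_ne_zero
    rw [show 2 * (Real.pi : ℂ) * Complex.I * ((n : ℤ) : ℂ) * ((t / (2 * Real.pi) : ℝ) : ℂ) / (1 : ℝ) =
      n * (t * Complex.I) by push_cast; field_simp]
    ring
  poly := fun p => by
    obtain ⟨x, hx, -⟩ := exists_poly (pH_poly p)
    exact ⟨x, iota_pH hx⟩
  dense := fun x => by
    obtain ⟨u, hu, hlim⟩ := mem_closure_iff_seq_limit.1 (show x.1 ∈ closure (S0 : Set E) from x.2)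
    refine mem_closure_of_tendsto (f := fun n => (⟨u n, S0.le_topologicalClosure (hu n)⟩ : XS))
      (tendsto_subtype_rng.2 hlim) (Filter.Eventually.of_forall fun n => ?_)
    obtain ⟨p, hp⟩ := poly_pH (hu n).2
    exact ⟨p, iota_pH hp⟩
  shift := ⟨Fm 1, fun x z hz => by
    refine (iota_hasSum _ hz).unique ?_
    rw [← hasSum_nat_add_iff' 1]
    convert (iota_hasSum x hz).mul_left z using 1
    · rfl
    · funext n
      rw [co_Fm, if_pos (by omega), show ((n + 1 : ℕ) : ℤ) - 1 = n by push_cast; ring]; ring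
    · rw [Finset.sum_range_one, co_Fm, if_pos (by omega), mem_H2.1 (XS_le x.2).1 _ (by omega)]
      simp, spec_S⟩
  back := ⟨Fm (-1), fun x z hz => by
    refine ((iota_hasSum _ hz).mul_left z).unique ?_
    have h0 : iota x 0 = co 0 x.1.1 := by
      refine (iota_hasSum x (mem_ball_self one_pos)).unique ?_
      have := hasSum_single (f := fun n : ℕ => co n x.1.1 * (0 : ℂ) ^ n) 0
        (fun n hn => by simp [hn])
      simpa using this
    convert (hasSum_nat_add_iff' 1).2 (iota_hasSum x hz) using 1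
    · rfl
    · funext n
      rw [co_Fm, if_pos (by omega), show (n : ℤ) - -1 = (n + 1 : ℕ) by push_cast; ring]; ring
    · rw [h0]; simp, spec_R⟩

theorem result : ∃ (X : Type) (_ : NormedAddCommGroup X) (_ : NormedSpace ℂ X)
    (_ : CompleteSpace X) (ι : X →ₗ[ℂ] (ℂ → ℂ)), Admissible ι ∧
    ∃ f : AddCircle (1 : ℝ) → ℂ, InST ι f ∧ ¬ InST ι (fun t => f t * f t) := by
  open Pool.Agent.H1.Toe in
  refine ⟨XS, inferInstance, inferInstance, inferInstance, iota, adm, f, ⟨f_bd.memLp, ?_⟩, ?_⟩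
  · open Pool.Agent.H1.Toe in
    obtain ⟨S, hS⟩ := exists_f
    refine ⟨S, fun p x hx z hz => ?_⟩
    convert H1.Toe.iota_hasSum (S x) hz using 3 with n
    rw [hS, H1.Toe.eq_pH hx, ← H1.Toe.co_Mul_pH H1.Toe.f_bd]
    show _ = H1.Toe.co n (H1.Toe.P (H1.Toe.Mul H1.Toe.f_bd _))
    rw [H1.Toe.co_P, if_pos (by omega)]
  · rintro ⟨-, S, hS⟩
    refine H1.Toe.not_sq S fun x hx n => ?_
    obtain ⟨p, hp⟩ := H1.Toe.poly_pH hx
    have := H1.Toe.coef_unique (fun z hz => H1.Toe.iota_hasSum (S x) hz)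
      (hS p x (H1.Toe.iota_pH hp))
    rw [hp, H1.Toe.co_Mul_pH]
    exact congrFun this n

end Pool.Agent.Results.MP_3f635c_an.NotAlgebra
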